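import Mathlib
import Pool.Agent.Lib.MP_f3090c_an.Cross

/-! P01: discrete crossing lemma for king walks. -/

namespace CarpetLib

/-- Two points of `ℤ × ℤ` at king distance at most `r`. -/
def Near (r : ℤ) (p q : ℤ × ℤ) : Prop := |p.1 - q.1| ≤ r ∧ |p.2 - q.2| ≤ r

/-- A king walk `p 0, ..., p N` from far left to far right and a king walk `q 0, ..., q M` from
far below to far above come near to each other. -/
theorem king_crossing (N M : ℕ) (p q : ℕ → ℤ × ℤ)
    (hp : ∀ i < N, Near 1 (p i) (p (i + 1))) (hq : ∀ j < M, Near 1 (q j) (q (j + 1)))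
    (h1 : ∀ j ≤ M, (p 0).1 + 1 < (q j).1) (h2 : ∀ j ≤ M, (q j).1 + 1 < (p N).1)
    (h3 : ∀ i ≤ N, (q 0).2 + 1 < (p i).2) (h4 : ∀ i ≤ N, (p i).2 + 1 < (q M).2) :
    ∃ i ≤ N, ∃ j ≤ M, Near 2 (p i) (q j) := by
  -- the walk q with intermediate points
  let r : ℕ → ℤ × ℤ := fun i => ((q ((i + 1) / 2)).1, (q (i / 2)).2)
  have hr0 : ∀ j, r (2 * j) = q j := by
    intro j
    simp only [r]
    rw [show (2 * j + 1) / 2 = j by omega, show 2 * j / 2 = j by omega]
  have hr1 : ∀ j, r (2 * j + 1) = ((q (j + 1)).1, (q j).2) := by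
    intro j
    simp only [r]
    rw [show (2 * j + 1 + 1) / 2 = j + 1 by omega, show (2 * j + 1) / 2 = j by omega]
  let a : ℕ → ℤ × ℤ := fun i =>
    ((r i).1 - (p 0).1, max 0 (min ((q M).2 - (q 0).2) ((r i).2 - (q 0).2)))
  let b : ℕ → ℤ × ℤ := fun i =>
    (max 0 (min ((p N).1 - (p 0).1) ((p i).1 - (p 0).1)), (p i).2 - (q 0).2)
  have hN0 := h1 0 (Nat.zero_le _)
  have hN1 := h2 0 (Nat.zero_le _)
  have hM0 := h3 0 (Nat.zero_le _)
  have hM1 := h4 0 (Nat.zero_le _)
  have hrx : ∀ i ≤ 2 * M, (p 0).1 + 1 < (r i).1 ∧ (r i).1 + 1 < (p N).1 := fun i hi =>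
    ⟨h1 _ (by omega), h2 _ (by omega)⟩
  obtain ⟨i, hi, j, hj, hij⟩ := Pool.Agent.Lib.MP_f3090c_an.Cross.crossing
    (m := (p N).1 - (p 0).1 + 1) (n := (q M).2 - (q 0).2 + 1) (K := 2 * M) (L := N)
    (a := a) (b := b)
    (by
      intro i hi
      have := hrx i hi
      simp only [a]
      omega)
    (by
      intro j hj
      have := h3 j hj
      have := h4 j hj
      simp only [b]
      omega)
    (by
      intro i hi
      rcases Nat.even_or_odd' i with ⟨k, rfl | rfl⟩
      · -- horizontal step
        have hk := hq k (by omega)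
        unfold Near at hk
        rw [abs_le, abs_le] at hk
        have e0 := hr0 k
        have e1 := hr1 k
        have hx : (r (2 * k)).1 = (q k).1 := by rw [e0]
        have hy : (r (2 * k)).2 = (q k).2 := by rw [e0]
        have hx' : (r (2 * k + 1)).1 = (q (k + 1)).1 := by rw [e1]
        have hy' : (r (2 * k + 1)).2 = (q k).2 := by rw [e1]
        rcases lt_trichotomy (q k).1 (q (k + 1)).1 with h | h | h
        · refine Or.inr (Or.inr ⟨?_, Or.inl ?_⟩)
          · simp only [a]; rw [hy, hy']
          · simp only [a]; rw [hx, hx']; omega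
        · refine Or.inl (Prod.ext ?_ ?_)
          · simp only [a]; rw [hx, hx', h]
          · simp only [a]; rw [hy, hy']
        · refine Or.inr (Or.inr ⟨?_, Or.inr ?_⟩)
          · simp only [a]; rw [hy, hy']
          · simp only [a]; rw [hx, hx']; omega
      · have hk := hq k (by omega)
        unfold Near at hk
        rw [abs_le, abs_le] at hk
        have e0 := hr0 (k + 1)
        have e1 := hr1 k
        rw [show 2 * (k + 1) = 2 * k + 1 + 1 by ring] at e0
        have hx : (r (2 * k + 1)).1 = (q (k + 1)).1 := by rw [e1]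
        have hy : (r (2 * k + 1)).2 = (q k).2 := by rw [e1]
        have hx' : (r (2 * k + 1 + 1)).1 = (q (k + 1)).1 := by rw [e0]
        have hy' : (r (2 * k + 1 + 1)).2 = (q (k + 1)).2 := by rw [e0]
        have hax : (a (2 * k + 1)).1 = (a (2 * k + 1 + 1)).1 := by
          simp only [a]; rw [hx, hx']
        have hay : (a (2 * k + 1)).2 = max 0 (min ((q M).2 - (q 0).2) ((q k).2 - (q 0).2)) := by
          simp only [a]; rw [hy]
        have hay' : (a (2 * k + 1 + 1)).2 =
            max 0 (min ((q M).2 - (q 0).2) ((q (k + 1)).2 - (q 0).2)) := by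
          simp only [a]; rw [hy']
        have hc : (a (2 * k + 1)).2 = (a (2 * k + 1 + 1)).2 ∨
            (a (2 * k + 1 + 1)).2 = (a (2 * k + 1)).2 + 1 ∨
            (a (2 * k + 1)).2 = (a (2 * k + 1 + 1)).2 + 1 := by
          rw [hay, hay']
          omega
        rcases hc with h | h | h
        · exact Or.inl (Prod.ext hax h)
        · exact Or.inr (Or.inl ⟨hax, Or.inl h⟩)
        · exact Or.inr (Or.inl ⟨hax, Or.inr h⟩))
    (by
      intro j hj
      have hk := hp j hj
      unfold Near at hk
      rw [abs_le, abs_le] at hk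
      unfold Pool.Agent.Lib.MP_f3090c_an.Cross.Adj8
      rw [abs_le, abs_le]
      simp only [b]
      omega)
    (by
      have : (r 0).2 = (q 0).2 := by rw [show (0 : ℕ) = 2 * 0 from rfl, hr0]
      simp only [a]
      rw [this]
      omega)
    (by
      simp only [a]
      rw [hr0]
      omega)
    (by
      simp only [b]
      omega)
    (by
      simp only [b]
      omega)
  -- the common point
  have hx : (a i).1 = (b j).1 := by rw [hij]
  have hy : (a i).2 = (b j).2 := by rw [hij]
  simp only [a, b] at hx hy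
  have hri := hrx i hi
  have h3j := h3 j hj
  have h4j := h4 j hj
  have hx' : (r i).1 = (p j).1 := by omega
  have hy' : (r i).2 = (p j).2 := by omega
  rcases Nat.even_or_odd' i with ⟨k, rfl | rfl⟩
  · refine ⟨j, hj, k, by omega, ?_⟩
    rw [hr0] at hx' hy'
    unfold Near
    rw [hx', hy']
    simp
  · refine ⟨j, hj, k, by omega, ?_⟩
    have hk := hq k (by omega)
    unfold Near at hk ⊢
    rw [abs_le, abs_le] at hk
    rw [hr1] at hx' hy'
    simp only at hx' hy'
    rw [abs_le, abs_le]
    omega

end CarpetLib
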