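import Mathlib

/-! P02a: chains. -/

open Set Filter Topology

namespace CarpetLib

/-- chain lemma: in a preconnected set any two points are joined by an `ε`-chain. -/
theorem exists_chain {X : Type*} [MetricSpace X] {C : Set X} (hC : IsPreconnected C) {x y : X}
    (hx : x ∈ C) (hy : y ∈ C) {ε : ℝ} (hε : 0 < ε) :
    ∃ (N : ℕ) (p : ℕ → X), p 0 = x ∧ p N = y ∧ (∀ i ≤ N, p i ∈ C) ∧
      ∀ i < N, dist (p i) (p (i + 1)) < ε := by
  set S : Set X := {z | z ∈ C ∧ ∃ (N : ℕ) (p : ℕ → X), p 0 = x ∧ p N = z ∧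
    (∀ i ≤ N, p i ∈ C) ∧ ∀ i < N, dist (p i) (p (i + 1)) < ε} with hS
  have hxS : x ∈ S := ⟨hx, 0, fun _ => x, rfl, rfl, fun _ _ => hx, fun i hi => absurd hi (by omega)⟩
  have hstep : ∀ z ∈ S, ∀ w ∈ C, dist z w < ε → w ∈ S := by
    rintro z ⟨hz, N, p, h0, hN, hp, hd⟩ w hw hzw
    refine ⟨hw, N + 1, fun i => if i ≤ N then p i else w, ?_, ?_, ?_, ?_⟩
    · simp [h0]
    · simp
    · intro i _
      by_cases h : i ≤ N
      · simp only [h, if_true]
        exact hp i h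
      · simp only [h, if_false]
        exact hw
    · intro i hi
      have h1 : i ≤ N := by omega
      simp only [h1, if_true]
      by_cases h2 : i + 1 ≤ N
      · simp only [h2, if_true]
        exact hd i (by omega)
      · have h3 : i = N := by omega
        simp only [h2, if_false]
        rw [h3, hN]
        exact hzw
  by_cases hyS : y ∈ S
  · exact hyS.2
  exfalso
  have hU : IsOpen (⋃ z ∈ S, Metric.ball z ε) :=
    isOpen_biUnion fun _ _ => Metric.isOpen_ball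
  have hV : IsOpen (⋃ z ∈ C \ S, Metric.ball z ε) :=
    isOpen_biUnion fun _ _ => Metric.isOpen_ball
  have hcov : C ⊆ (⋃ z ∈ S, Metric.ball z ε) ∪ (⋃ z ∈ C \ S, Metric.ball z ε) := by
    intro w hw
    by_cases h : w ∈ S
    · exact Or.inl (mem_biUnion h (Metric.mem_ball_self hε))
    · exact Or.inr (mem_biUnion (show w ∈ C \ S from ⟨hw, h⟩) (Metric.mem_ball_self hε))
  obtain ⟨w, hw, hwU, hwV⟩ := hC _ _ hU hV hcov
    ⟨x, hx, mem_biUnion hxS (Metric.mem_ball_self hε)⟩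
    ⟨y, hy, mem_biUnion (show y ∈ C \ S from ⟨hy, hyS⟩) (Metric.mem_ball_self hε)⟩
  obtain ⟨z, hz, hzw⟩ := mem_iUnion₂.1 hwU
  obtain ⟨z', hz', hzw'⟩ := mem_iUnion₂.1 hwV
  have h1 : w ∈ S := hstep z hz w hw (by rw [dist_comm]; exact Metric.mem_ball.1 hzw)
  exact hz'.2 (hstep w h1 z' hz'.1 (Metric.mem_ball.1 hzw'))

end CarpetLib
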