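import Pool.Agent.Lib.MP_f3090c_an.P.Cross

/-! P03: crossing lemma in a half plane. -/

open Set Filter Topology

namespace CarpetLib

/-- Two continua in the closed half plane `{x ≤ 0}` which contain linked pairs of points of the
boundary line intersect. -/
theorem half_crossing {C C' : Set (ℝ × ℝ)} (hC : IsCompact C) (hCc : IsPreconnected C)
    (hC' : IsCompact C') (hCc' : IsPreconnected C') (hh : ∀ z ∈ C, z.1 ≤ 0)
    (hh' : ∀ z ∈ C', z.1 ≤ 0) {t1 t2 t3 t4 : ℝ} (h12 : t1 < t2) (h23 : t2 < t3) (h34 : t3 < t4)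
    (h1 : ((0:ℝ), t1) ∈ C) (h3 : ((0:ℝ), t3) ∈ C) (h2 : ((0:ℝ), t2) ∈ C')
    (h4 : ((0:ℝ), t4) ∈ C') : (C ∩ C').Nonempty := by
  obtain ⟨M0, hM0⟩ := (hC.union hC').isBounded.exists_norm_le
  set M := M0 + 2 with hM
  have hb : ∀ z ∈ C ∪ C', |z.1| ≤ M0 ∧ |z.2| ≤ M0 := by
    intro z hz
    have h := hM0 z hz
    exact ⟨(norm_fst_le z).trans h, (norm_snd_le z).trans h⟩
  have hbC : ∀ z ∈ C, -M0 ≤ z.1 ∧ z.1 ≤ M0 ∧ -M0 ≤ z.2 ∧ z.2 ≤ M0 := by
    intro z hz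
    have h := hb z (Or.inl hz)
    rw [abs_le, abs_le] at h
    exact ⟨h.1.1, h.1.2, h.2.1, h.2.2⟩
  have hbC' : ∀ z ∈ C', -M0 ≤ z.1 ∧ z.1 ≤ M0 ∧ -M0 ≤ z.2 ∧ z.2 ≤ M0 := by
    intro z hz
    have h := hb z (Or.inr hz)
    rw [abs_le, abs_le] at h
    exact ⟨h.1.1, h.1.2, h.2.1, h.2.2⟩
  have b1 := hbC _ h1
  have b2 := hbC' _ h2
  have b3 := hbC _ h3
  have b4 := hbC' _ h4
  simp only at b1 b2 b3 b4
  -- arms of C
  let A1 : Set (ℝ × ℝ) := Icc 0 1 ×ˢ {t1}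
  let A2 : Set (ℝ × ℝ) := {1} ×ˢ Icc (-3 * M) t1
  let A3 : Set (ℝ × ℝ) := Icc 0 1 ×ˢ {t3}
  let A4 : Set (ℝ × ℝ) := {1} ×ˢ Icc t3 (3 * M)
  let B1 : Set (ℝ × ℝ) := Icc 0 3 ×ˢ {t2}
  let B2 : Set (ℝ × ℝ) := Icc 0 (1 / 2) ×ˢ {t4}
  let B3 : Set (ℝ × ℝ) := {1 / 2} ×ˢ Icc t4 (2 * M)
  let B4 : Set (ℝ × ℝ) := Icc (-2 * M) (1 / 2) ×ˢ {2 * M}
  have kA1 : IsCompact A1 := isCompact_Icc.prod isCompact_singleton
  have kA2 : IsCompact A2 := isCompact_singleton.prod isCompact_Icc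
  have kA3 : IsCompact A3 := isCompact_Icc.prod isCompact_singleton
  have kA4 : IsCompact A4 := isCompact_singleton.prod isCompact_Icc
  have kB1 : IsCompact B1 := isCompact_Icc.prod isCompact_singleton
  have kB2 : IsCompact B2 := isCompact_Icc.prod isCompact_singleton
  have kB3 : IsCompact B3 := isCompact_singleton.prod isCompact_Icc
  have kB4 : IsCompact B4 := isCompact_Icc.prod isCompact_singleton
  have cA1 : IsPreconnected A1 := isPreconnected_Icc.prod isPreconnected_singleton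
  have cA2 : IsPreconnected A2 := isPreconnected_singleton.prod isPreconnected_Icc
  have cA3 : IsPreconnected A3 := isPreconnected_Icc.prod isPreconnected_singleton
  have cA4 : IsPreconnected A4 := isPreconnected_singleton.prod isPreconnected_Icc
  have cB1 : IsPreconnected B1 := isPreconnected_Icc.prod isPreconnected_singleton
  have cB2 : IsPreconnected B2 := isPreconnected_Icc.prod isPreconnected_singleton
  have cB3 : IsPreconnected B3 := isPreconnected_singleton.prod isPreconnected_Icc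
  have cB4 : IsPreconnected B4 := isPreconnected_Icc.prod isPreconnected_singleton
  have mA1 : ∀ z : ℝ × ℝ, z ∈ A1 ↔ (0 ≤ z.1 ∧ z.1 ≤ 1) ∧ z.2 = t1 := fun z => Iff.rfl
  have mA2 : ∀ z : ℝ × ℝ, z ∈ A2 ↔ z.1 = 1 ∧ (-3 * M ≤ z.2 ∧ z.2 ≤ t1) := fun z => Iff.rfl
  have mA3 : ∀ z : ℝ × ℝ, z ∈ A3 ↔ (0 ≤ z.1 ∧ z.1 ≤ 1) ∧ z.2 = t3 := fun z => Iff.rfl
  have mA4 : ∀ z : ℝ × ℝ, z ∈ A4 ↔ z.1 = 1 ∧ (t3 ≤ z.2 ∧ z.2 ≤ 3 * M) := fun z => Iff.rfl
  have mB1 : ∀ z : ℝ × ℝ, z ∈ B1 ↔ (0 ≤ z.1 ∧ z.1 ≤ 3) ∧ z.2 = t2 := fun z => Iff.rfl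
  have mB2 : ∀ z : ℝ × ℝ, z ∈ B2 ↔ (0 ≤ z.1 ∧ z.1 ≤ 1 / 2) ∧ z.2 = t4 := fun z => Iff.rfl
  have mB3 : ∀ z : ℝ × ℝ, z ∈ B3 ↔ z.1 = 1 / 2 ∧ (t4 ≤ z.2 ∧ z.2 ≤ 2 * M) := fun z => Iff.rfl
  have mB4 : ∀ z : ℝ × ℝ, z ∈ B4 ↔ (-2 * M ≤ z.1 ∧ z.1 ≤ 1 / 2) ∧ z.2 = 2 * M := fun z => Iff.rfl
  have hKc : IsPreconnected (((C ∪ A1) ∪ A2) ∪ (A3 ∪ A4)) := by
    have e1 : IsPreconnected (C ∪ A1) := hCc.union (0, t1) h1 ((mA1 _).2 (by norm_num)) cA1
    have e2 : IsPreconnected ((C ∪ A1) ∪ A2) :=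
      e1.union (1, t1) (Or.inr ((mA1 _).2 (by norm_num)))
        ((mA2 _).2 ⟨rfl, by simp only; linarith, le_rfl⟩) cA2
    have e3 : IsPreconnected (A3 ∪ A4) :=
      cA3.union (1, t3) ((mA3 _).2 (by norm_num)) ((mA4 _).2 ⟨rfl, le_rfl, by simp only; linarith⟩)
        cA4
    exact e2.union (0, t3) (Or.inl (Or.inl h3)) (Or.inl ((mA3 _).2 (by norm_num))) e3
  have hKc' : IsPreconnected ((C' ∪ B1) ∪ (B2 ∪ B3 ∪ B4)) := by
    have e1 : IsPreconnected (C' ∪ B1) := hCc'.union (0, t2) h2 ((mB1 _).2 (by norm_num)) cB1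
    have e2 : IsPreconnected (B2 ∪ B3) :=
      cB2.union (1 / 2, t4) ((mB2 _).2 (by norm_num))
        ((mB3 _).2 ⟨rfl, le_rfl, by simp only; linarith⟩) cB3
    have e3 : IsPreconnected (B2 ∪ B3 ∪ B4) :=
      e2.union (1 / 2, 2 * M) (Or.inr ((mB3 _).2 ⟨rfl, by simp only; linarith, le_rfl⟩))
        ((mB4 _).2 ⟨⟨by simp only; linarith, le_rfl⟩, rfl⟩) cB4
    exact e1.union (0, t4) (Or.inl h4) (Or.inl (Or.inl ((mB2 _).2 (by norm_num)))) e3
  have hcross := crossing (C := (C' ∪ B1) ∪ (B2 ∪ B3 ∪ B4)) (C' := ((C ∪ A1) ∪ A2) ∪ (A3 ∪ A4))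
    (p := (-2 * M, 2 * M)) (p' := (3, t2)) (q := (1, -3 * M)) (q' := (1, 3 * M))
    ((hC'.union kB1).union ((kB2.union kB3).union kB4)) hKc'
    (((hC.union kA1).union kA2).union (kA3.union kA4)) hKc
    (Or.inr (Or.inr ((mB4 _).2 ⟨⟨le_rfl, by simp only; linarith⟩, rfl⟩)))
    (Or.inl (Or.inr ((mB1 _).2 (by norm_num))))
    (Or.inl (Or.inr ((mA2 _).2 ⟨rfl, le_rfl, by simp only; linarith⟩)))
    (Or.inr (Or.inr ((mA4 _).2 ⟨rfl, by simp only; linarith, le_rfl⟩)))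
    (by
      rintro z (((hz | hz) | hz) | (hz | hz))
      · have := hbC z hz; simp only; linarith
      · rw [mA1] at hz; simp only; linarith [hz.1.1]
      · rw [mA2] at hz; simp only; linarith [hz.1]
      · rw [mA3] at hz; simp only; linarith [hz.1.1]
      · rw [mA4] at hz; simp only; linarith [hz.1])
    (by
      rintro z (((hz | hz) | hz) | (hz | hz))
      · have := hh z hz; simp only; linarith
      · rw [mA1] at hz; simp only; linarith [hz.1.2]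
      · rw [mA2] at hz; simp only; linarith [hz.1]
      · rw [mA3] at hz; simp only; linarith [hz.1.2]
      · rw [mA4] at hz; simp only; linarith [hz.1])
    (by
      rintro z ((hz | hz) | ((hz | hz) | hz))
      · have := hbC' z hz; simp only; linarith
      · rw [mB1] at hz; simp only; linarith [hz.2]
      · rw [mB2] at hz; simp only; linarith [hz.2]
      · rw [mB3] at hz; simp only; linarith [hz.2.1]
      · rw [mB4] at hz; simp only; linarith [hz.2])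
    (by
      rintro z ((hz | hz) | ((hz | hz) | hz))
      · have := hbC' z hz; simp only; linarith
      · rw [mB1] at hz; simp only; linarith [hz.2]
      · rw [mB2] at hz; simp only; linarith [hz.2]
      · rw [mB3] at hz; simp only; linarith [hz.2.2]
      · rw [mB4] at hz; simp only; linarith [hz.2])
  obtain ⟨z, hz', hz⟩ := hcross
  rcases hz with ((hz | hz) | hz) | (hz | hz)
  · have hzC := hbC z hz
    have hz0 := hh z hz
    rcases hz' with (hz' | hz') | ((hz' | hz') | hz')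
    · exact ⟨z, hz, hz'⟩
    · rw [mB1] at hz'
      have e : z = (0, t2) := Prod.ext (le_antisymm hz0 hz'.1.1) hz'.2
      exact ⟨z, hz, e ▸ h2⟩
    · rw [mB2] at hz'
      have e : z = (0, t4) := Prod.ext (le_antisymm hz0 hz'.1.1) hz'.2
      exact ⟨z, hz, e ▸ h4⟩
    · rw [mB3] at hz'; exfalso; linarith [hz'.1]
    · rw [mB4] at hz'; exfalso; linarith [hz'.2]
  · rw [mA1] at hz
    rcases hz' with (hz' | hz') | ((hz' | hz') | hz')
    · have e : z = (0, t1) := Prod.ext (le_antisymm (hh' z hz') hz.1.1) hz.2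
      exact ⟨z, e ▸ h1, hz'⟩
    · rw [mB1] at hz'; exfalso; linarith [hz'.2, hz.2]
    · rw [mB2] at hz'; exfalso; linarith [hz'.2, hz.2]
    · rw [mB3] at hz'; exfalso; linarith [hz'.2.1, hz.2]
    · rw [mB4] at hz'; exfalso; linarith [hz'.2, hz.2]
  · rw [mA2] at hz
    rcases hz' with (hz' | hz') | ((hz' | hz') | hz')
    · exfalso; linarith [hh' z hz', hz.1]
    · rw [mB1] at hz'; exfalso; linarith [hz'.2, hz.2.2]
    · rw [mB2] at hz'; exfalso; linarith [hz'.1.2, hz.1]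
    · rw [mB3] at hz'; exfalso; linarith [hz'.1, hz.1]
    · rw [mB4] at hz'; exfalso; linarith [hz'.1.2, hz.1]
  · rw [mA3] at hz
    rcases hz' with (hz' | hz') | ((hz' | hz') | hz')
    · have e : z = (0, t3) := Prod.ext (le_antisymm (hh' z hz') hz.1.1) hz.2
      exact ⟨z, e ▸ h3, hz'⟩
    · rw [mB1] at hz'; exfalso; linarith [hz'.2, hz.2]
    · rw [mB2] at hz'; exfalso; linarith [hz'.2, hz.2]
    · rw [mB3] at hz'; exfalso; linarith [hz'.2.1, hz.2]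
    · rw [mB4] at hz'; exfalso; linarith [hz'.2, hz.2]
  · rw [mA4] at hz
    rcases hz' with (hz' | hz') | ((hz' | hz') | hz')
    · exfalso; linarith [hh' z hz', hz.1]
    · rw [mB1] at hz'; exfalso; linarith [hz'.2, hz.2.1]
    · rw [mB2] at hz'; exfalso; linarith [hz'.1.2, hz.1]
    · rw [mB3] at hz'; exfalso; linarith [hz'.1, hz.1]
    · rw [mB4] at hz'; exfalso; linarith [hz'.1.2, hz.1]

end CarpetLib
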