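import Pool.Agent.Lib.MP_f3090c_an.P.Outside

/-! P6: topological part of the comb lemma. -/

open Set Filter Topology

namespace CarpetLib

/-- Two disjoint continua cannot join the tips of a comb with four teeth alternately.
The base of the comb is the vertical segment from `(X, y 0)` to `(X, y 3)`, the `i`-th tooth is
the segment from `(X, y i)` to `(X + k, y i)` followed by the continuum `T i`, with tip `t i`. -/
theorem comb_top {X k g : ℝ} {y : Fin 4 → ℝ} {T : Fin 4 → Set (ℝ × ℝ)} {t : Fin 4 → ℝ × ℝ}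
    {C D : Set (ℝ × ℝ)} (hk : 0 < k)
    (hy0 : y 0 + 2 * k ≤ y 1) (hy1 : y 1 + 2 * k ≤ y 2) (hy2 : y 2 < y 3)
    (hg0 : y 0 + 2 * g < y 1) (hg1 : y 1 + 2 * g < y 2) (hg2 : y 2 + 2 * g < y 3)
    (hTc : ∀ i, IsCompact (T i)) (hTp : ∀ i, IsPreconnected (T i))
    (hTx : ∀ i, ∀ z ∈ T i, X + k ≤ z.1) (hTy : ∀ i, ∀ z ∈ T i, |z.2 - y i| ≤ g)
    (hTl : ∀ i, ((X + k, y i) : ℝ × ℝ) ∈ T i) (hTt : ∀ i, t i ∈ T i)
    (hC : IsCompact C) (hCp : IsPreconnected C) (hD : IsCompact D) (hDp : IsPreconnected D)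
    (hCR : ∀ z ∈ C, ¬ (X - k ≤ z.1 ∧ z.1 ≤ X + k ∧ y 0 ≤ z.2 ∧ z.2 ≤ y 3))
    (hDR : ∀ z ∈ D, ¬ (X - k ≤ z.1 ∧ z.1 ≤ X + k ∧ y 0 ≤ z.2 ∧ z.2 ≤ y 3))
    (hCD : Disjoint C D) (hC1 : Disjoint C (T 1)) (hC3 : Disjoint C (T 3))
    (hD0 : Disjoint D (T 0)) (hD2 : Disjoint D (T 2))
    (ht0 : t 0 ∈ C) (ht2 : t 2 ∈ C) (ht1 : t 1 ∈ D) (ht3 : t 3 ∈ D) : False := by
  have hg : 0 ≤ g := (abs_nonneg _).trans (hTy 0 _ (hTl 0))
  -- the two continua
  set A : Set (ℝ × ℝ) := ((((((C ∪ T 0) ∪ T 2) ∪ Icc X (X + k) ×ˢ ({y 0} : Set ℝ)) ∪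
    Icc X (X + k) ×ˢ ({y 2} : Set ℝ)) ∪ ({X} : Set ℝ) ×ˢ Icc (y 0) (y 1 - k)) ∪
    ({X} : Set ℝ) ×ˢ Icc (y 1 + k) (y 2)) with hA
  set B : Set (ℝ × ℝ) := (((((D ∪ T 1) ∪ T 3) ∪ Icc X (X + k) ×ˢ ({y 3} : Set ℝ)) ∪
    Icc (X - k) X ×ˢ ({y 3} : Set ℝ)) ∪ ({X - k} : Set ℝ) ×ˢ Icc (y 1) (y 3)) with hB
  have hAc : IsCompact A :=
    (((((hC.union (hTc 0)).union (hTc 2)).union (hseg_compact _ _ _)).union
      (hseg_compact _ _ _)).union (vseg_compact _ _ _)).union (vseg_compact _ _ _)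
  have hBc : IsCompact B :=
    ((((hD.union (hTc 1)).union (hTc 3)).union (hseg_compact _ _ _)).union
      (hseg_compact _ _ _)).union (vseg_compact _ _ _)
  have hAp : IsPreconnected A := by
    refine IsPreconnected.union (X, y 2) (Or.inl (Or.inr ⟨⟨le_refl _, by linarith⟩, rfl⟩))
      ⟨rfl, by simp only; linarith, le_refl _⟩ ?_ (vseg_preconnected _ _ _)
    refine IsPreconnected.union (X, y 0) (Or.inl (Or.inr ⟨⟨le_refl _, by linarith⟩, rfl⟩))
      ⟨rfl, le_refl _, by simp only; linarith⟩ ?_ (vseg_preconnected _ _ _)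
    refine IsPreconnected.union (X + k, y 2) (Or.inl (Or.inr (hTl 2)))
      ⟨⟨by simp only; linarith, le_refl _⟩, rfl⟩ ?_ (hseg_preconnected _ _ _)
    refine IsPreconnected.union (X + k, y 0) (Or.inl (Or.inr (hTl 0)))
      ⟨⟨by simp only; linarith, le_refl _⟩, rfl⟩ ?_ (hseg_preconnected _ _ _)
    refine IsPreconnected.union (t 2) (Or.inl ht2) (hTt 2) ?_ (hTp 2)
    exact IsPreconnected.union (t 0) ht0 (hTt 0) hCp (hTp 0)
  have hBp : IsPreconnected B := by
    refine IsPreconnected.union (X - k, y 3) (Or.inr ⟨⟨le_refl _, by simp only; linarith⟩, rfl⟩)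
      ⟨rfl, by simp only; linarith, le_refl _⟩ ?_ (vseg_preconnected _ _ _)
    refine IsPreconnected.union (X, y 3) (Or.inr ⟨⟨le_refl _, by simp only; linarith⟩, rfl⟩)
      ⟨⟨by simp only; linarith, le_refl _⟩, rfl⟩ ?_ (hseg_preconnected _ _ _)
    refine IsPreconnected.union (X + k, y 3) (Or.inr (hTl 3))
      ⟨⟨by simp only; linarith, le_refl _⟩, rfl⟩ ?_ (hseg_preconnected _ _ _)
    refine IsPreconnected.union (t 3) (Or.inl ht3) (hTt 3) ?_ (hTp 3)
    exact IsPreconnected.union (t 1) ht1 (hTt 1) hDp (hTp 1)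
  -- the continua avoid the open square
  have hfar1 : ∀ z : ℝ × ℝ, (z.1 ≤ X - k ∨ X + k ≤ z.1) → k ≤ max |z.1 - X| |z.2 - y 1| := by
    rintro z (h | h)
    · refine le_max_of_le_left ?_
      rw [le_abs]
      right
      linarith
    · refine le_max_of_le_left ?_
      rw [le_abs]
      left
      linarith
  have hfar2 : ∀ z : ℝ × ℝ, (z.2 ≤ y 1 - k ∨ y 1 + k ≤ z.2) → k ≤ max |z.1 - X| |z.2 - y 1| := by
    rintro z (h | h)
    · refine le_max_of_le_right ?_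
      rw [le_abs]
      right
      linarith
    · refine le_max_of_le_right ?_
      rw [le_abs]
      left
      linarith
  have hfar3 : ∀ z : ℝ × ℝ, ¬ (X - k ≤ z.1 ∧ z.1 ≤ X + k ∧ y 0 ≤ z.2 ∧ z.2 ≤ y 3) →
      k ≤ max |z.1 - X| |z.2 - y 1| := by
    intro z hz
    by_cases h1 : z.1 < X - k
    · exact hfar1 z (Or.inl h1.le)
    by_cases h2 : X + k < z.1
    · exact hfar1 z (Or.inr h2.le)
    by_cases h3 : z.2 < y 0
    · exact hfar2 z (Or.inl (by linarith))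
    by_cases h4 : y 3 < z.2
    · exact hfar2 z (Or.inr (by linarith))
    exact absurd ⟨not_lt.1 h1, not_lt.1 h2, not_lt.1 h3, not_lt.1 h4⟩ hz
  have hAo : ∀ z ∈ A, k ≤ max |z.1 - X| |z.2 - y 1| := by
    rintro z ((((((h | h) | h) | ⟨h, h'⟩) | ⟨h, h'⟩) | ⟨h, h'⟩) | ⟨h, h'⟩)
    · exact hfar3 z (hCR z h)
    · exact hfar1 z (Or.inr (hTx 0 z h))
    · exact hfar1 z (Or.inr (hTx 2 z h))
    · have : z.2 = y 0 := h'
      exact hfar2 z (Or.inl (by linarith))
    · have : z.2 = y 2 := h'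
      exact hfar2 z (Or.inr (by linarith))
    · exact hfar2 z (Or.inl h'.2)
    · exact hfar2 z (Or.inr h'.1)
  have hBo : ∀ z ∈ B, k ≤ max |z.1 - X| |z.2 - y 1| := by
    rintro z (((((h | h) | h) | ⟨h, h'⟩) | ⟨h, h'⟩) | ⟨h, h'⟩)
    · exact hfar3 z (hDR z h)
    · exact hfar1 z (Or.inr (hTx 1 z h))
    · exact hfar1 z (Or.inr (hTx 3 z h))
    · have : z.2 = y 3 := h'
      exact hfar2 z (Or.inr (by linarith))
    · have : z.2 = y 3 := h'
      exact hfar2 z (Or.inr (by linarith))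
    · have : z.1 = X - k := h
      exact hfar1 z (Or.inl (by linarith))
  obtain ⟨w, hwB, hwA⟩ := outside_crossing hBc hBp hAc hAp hk (c := (X, y 1)) hBo hAo
    (Or.inr ⟨rfl, le_refl _, by simp only; linarith⟩)
    (Or.inl (Or.inl (Or.inl (Or.inl (Or.inr (hTl 1))))))
    (Or.inl (Or.inr ⟨rfl, by simp only; linarith, le_refl _⟩))
    (Or.inr ⟨rfl, le_refl _, by simp only; linarith⟩)
  -- the vertical positions of the teeth
  have hT0 : ∀ z ∈ T 0, z.2 < y 1 - g := fun z hz => by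
    have := (abs_le.1 (hTy 0 z hz)).2
    linarith
  have hT1 : ∀ z ∈ T 1, y 1 - g ≤ z.2 ∧ z.2 < y 2 - g := fun z hz => by
    have := abs_le.1 (hTy 1 z hz)
    constructor <;> linarith [this.1, this.2]
  have hT2 : ∀ z ∈ T 2, y 2 - g ≤ z.2 ∧ z.2 < y 3 - g := fun z hz => by
    have := abs_le.1 (hTy 2 z hz)
    constructor <;> linarith [this.1, this.2]
  have hT3 : ∀ z ∈ T 3, y 3 - g ≤ z.2 := fun z hz => by
    have := (abs_le.1 (hTy 3 z hz)).1
    linarith
  rcases hwA with ((((((h | h) | h) | ⟨h, h'⟩) | ⟨h, h'⟩) | ⟨h, h'⟩) | ⟨h, h'⟩)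
  · -- `w ∈ C`
    rcases hwB with (((((u | u) | u) | ⟨u, u'⟩) | ⟨u, u'⟩) | ⟨u, u'⟩)
    · exact Set.disjoint_left.1 hCD h u
    · exact Set.disjoint_left.1 hC1 h u
    · exact Set.disjoint_left.1 hC3 h u
    · have e : w.2 = y 3 := u'
      exact hCR w h ⟨by linarith [u.1], u.2, by linarith, e.le⟩
    · have e : w.2 = y 3 := u'
      exact hCR w h ⟨u.1, by linarith [u.2], by linarith, e.le⟩
    · have e : w.1 = X - k := u
      exact hCR w h ⟨e.ge, by linarith, by linarith [u'.1], u'.2⟩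
  · -- `w ∈ T 0`
    have a1 := hT0 w h
    have a2 := hTx 0 w h
    rcases hwB with (((((u | u) | u) | ⟨u, u'⟩) | ⟨u, u'⟩) | ⟨u, u'⟩)
    · exact Set.disjoint_left.1 hD0 u h
    · linarith [(hT1 w u).1]
    · linarith [hT3 w u]
    · have e : w.2 = y 3 := u'
      linarith
    · have e : w.2 = y 3 := u'
      linarith
    · have e : w.1 = X - k := u
      linarith
  · -- `w ∈ T 2`
    have a1 := hT2 w h
    have a2 := hTx 2 w h
    rcases hwB with (((((u | u) | u) | ⟨u, u'⟩) | ⟨u, u'⟩) | ⟨u, u'⟩)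
    · exact Set.disjoint_left.1 hD2 u h
    · linarith [(hT1 w u).2]
    · linarith [hT3 w u]
    · have e : w.2 = y 3 := u'
      linarith
    · have e : w.2 = y 3 := u'
      linarith
    · have e : w.1 = X - k := u
      linarith
  · -- first horizontal segment
    have a1 : w.2 = y 0 := h'
    rcases hwB with (((((u | u) | u) | ⟨u, u'⟩) | ⟨u, u'⟩) | ⟨u, u'⟩)
    · exact hDR w u ⟨by linarith [h.1], h.2, a1.ge, by linarith⟩
    · linarith [(hT1 w u).1]
    · linarith [hT3 w u]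
    · have e : w.2 = y 3 := u'
      linarith
    · have e : w.2 = y 3 := u'
      linarith
    · have e : w.1 = X - k := u
      linarith [h.1]
  · -- second horizontal segment
    have a1 : w.2 = y 2 := h'
    rcases hwB with (((((u | u) | u) | ⟨u, u'⟩) | ⟨u, u'⟩) | ⟨u, u'⟩)
    · exact hDR w u ⟨by linarith [h.1], h.2, by linarith, by linarith⟩
    · linarith [(hT1 w u).2]
    · linarith [hT3 w u]
    · have e : w.2 = y 3 := u'
      linarith
    · have e : w.2 = y 3 := u'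
      linarith
    · have e : w.1 = X - k := u
      linarith [h.1]
  · -- lower vertical segment
    have a1 : w.1 = X := h
    rcases hwB with (((((u | u) | u) | ⟨u, u'⟩) | ⟨u, u'⟩) | ⟨u, u'⟩)
    · exact hDR w u ⟨by linarith, by linarith, h'.1, by linarith [h'.2]⟩
    · linarith [hTx 1 w u]
    · linarith [hTx 3 w u]
    · have e : w.2 = y 3 := u'
      linarith [h'.2]
    · have e : w.2 = y 3 := u'
      linarith [h'.2]
    · have e : w.1 = X - k := u
      linarith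
  · -- upper vertical segment
    have a1 : w.1 = X := h
    rcases hwB with (((((u | u) | u) | ⟨u, u'⟩) | ⟨u, u'⟩) | ⟨u, u'⟩)
    · exact hDR w u ⟨by linarith, by linarith, by linarith [h'.1], by linarith [h'.2]⟩
    · linarith [hTx 1 w u]
    · linarith [hTx 3 w u]
    · have e : w.2 = y 3 := u'
      linarith [h'.2]
    · have e : w.2 = y 3 := u'
      linarith [h'.2]
    · have e : w.1 = X - k := u
      linarith

end CarpetLib
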