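import Pool.Agent.Lib.MP_f3090c_an.P.King
import Pool.Agent.Lib.MP_f3090c_an.P.Chain

/-! P02b: crossing lemma for continua in the plane. -/

open Set Filter Topology

namespace CarpetLib

private theorem Cross_floor_near {a b : ℝ} (h : |a - b| < 1) : |⌊a⌋ - ⌊b⌋| ≤ 1 := by
  obtain ⟨h1, h2⟩ := abs_lt.mp h
  have ha := Int.floor_le a
  have ha' := Int.lt_floor_add_one a
  have hb := Int.floor_le b
  have hb' := Int.lt_floor_add_one b
  rw [abs_le]
  constructor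
  · have : ((⌊b⌋ : ℤ) : ℝ) < ((⌊a⌋ + 2 : ℤ) : ℝ) := by push_cast; linarith
    have := Int.cast_lt.mp this
    omega
  · have : ((⌊a⌋ : ℤ) : ℝ) < ((⌊b⌋ + 2 : ℤ) : ℝ) := by push_cast; linarith
    have := Int.cast_lt.mp this
    omega

private theorem Cross_floor_gap {a b : ℝ} (h : a + 10 ≤ b) : ⌊a⌋ + 1 < ⌊b⌋ := by
  have ha := Int.floor_le a
  have hb' := Int.lt_floor_add_one b
  have : ((⌊a⌋ + 1 : ℤ) : ℝ) < ((⌊b⌋ : ℤ) : ℝ) := by push_cast; linarith
  exact Int.cast_lt.mp this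

private theorem Cross_floor_close {a b : ℝ} (h : |⌊a⌋ - ⌊b⌋| ≤ 2) : |a - b| < 4 := by
  obtain ⟨h1, h2⟩ := abs_le.mp h
  have ha := Int.floor_le a
  have ha' := Int.lt_floor_add_one a
  have hb := Int.floor_le b
  have hb' := Int.lt_floor_add_one b
  have h1' : ((-2 : ℤ) : ℝ) ≤ ((⌊a⌋ - ⌊b⌋ : ℤ) : ℝ) := Int.cast_le.mpr h1
  have h2' : ((⌊a⌋ - ⌊b⌋ : ℤ) : ℝ) ≤ ((2 : ℤ) : ℝ) := Int.cast_le.mpr h2
  push_cast at h1' h2'
  rw [abs_lt]
  constructor <;> linarith

theorem crossing {C C' : Set (ℝ × ℝ)} (hC : IsCompact C) (hCc : IsPreconnected C)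
    (hC' : IsCompact C') (hCc' : IsPreconnected C') {p p' q q' : ℝ × ℝ}
    (hp : p ∈ C) (hp' : p' ∈ C) (hq : q ∈ C') (hq' : q' ∈ C')
    (h1 : ∀ z ∈ C', p.1 < z.1) (h2 : ∀ z ∈ C', z.1 < p'.1)
    (h3 : ∀ z ∈ C, q.2 < z.2) (h4 : ∀ z ∈ C, z.2 < q'.2) : (C ∩ C').Nonempty := by
  by_contra hne
  have hdisj : Disjoint C C' := by
    rw [Set.disjoint_iff_inter_eq_empty]
    exact Set.not_nonempty_iff_eq_empty.mp hne
  obtain ⟨r, hr, hrd⟩ := Metric.exists_pos_forall_lt_edist hC hC'.isClosed hdisj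
  obtain ⟨z1, hz1, hm1⟩ := hC'.exists_isMinOn ⟨q, hq⟩ (continuous_fst.continuousOn)
  obtain ⟨z2, hz2, hm2⟩ := hC'.exists_isMaxOn ⟨q, hq⟩ (continuous_fst.continuousOn)
  obtain ⟨z3, hz3, hm3⟩ := hC.exists_isMinOn ⟨p, hp⟩ (continuous_snd.continuousOn)
  obtain ⟨z4, hz4, hm4⟩ := hC.exists_isMaxOn ⟨p, hp⟩ (continuous_snd.continuousOn)
  have e1 := h1 z1 hz1
  have e2 := h2 z2 hz2
  have e3 := h3 z3 hz3
  have e4 := h4 z4 hz4
  have hr' : (0 : ℝ) < r := hr
  obtain ⟨δ, hδ, hδr, hδ1, hδ2, hδ3, hδ4⟩ : ∃ δ : ℝ, 0 < δ ∧ 10 * δ ≤ r ∧ 10 * δ ≤ z1.1 - p.1 ∧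
      10 * δ ≤ p'.1 - z2.1 ∧ 10 * δ ≤ z3.2 - q.2 ∧ 10 * δ ≤ q'.2 - z4.2 := by
    refine ⟨(min (r : ℝ) (min (z1.1 - p.1) (min (p'.1 - z2.1) (min (z3.2 - q.2) (q'.2 - z4.2))))) / 10,
      ?_, ?_, ?_, ?_, ?_, ?_⟩
    · apply div_pos _ (by norm_num)
      refine lt_min hr' (lt_min (by linarith) (lt_min (by linarith) (lt_min (by linarith)
        (by linarith))))
    · have := min_le_left (r : ℝ) (min (z1.1 - p.1) (min (p'.1 - z2.1) (min (z3.2 - q.2)
        (q'.2 - z4.2))))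
      linarith
    · have := (min_le_right (r : ℝ) (min (z1.1 - p.1) (min (p'.1 - z2.1) (min (z3.2 - q.2)
        (q'.2 - z4.2))))).trans (min_le_left _ _)
      linarith
    · have := ((min_le_right (r : ℝ) (min (z1.1 - p.1) (min (p'.1 - z2.1) (min (z3.2 - q.2)
        (q'.2 - z4.2))))).trans (min_le_right _ _)).trans (min_le_left _ _)
      linarith
    · have := (((min_le_right (r : ℝ) (min (z1.1 - p.1) (min (p'.1 - z2.1) (min (z3.2 - q.2)
        (q'.2 - z4.2))))).trans (min_le_right _ _)).trans (min_le_right _ _)).trans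
        (min_le_left _ _)
      linarith
    · have := (((min_le_right (r : ℝ) (min (z1.1 - p.1) (min (p'.1 - z2.1) (min (z3.2 - q.2)
        (q'.2 - z4.2))))).trans (min_le_right _ _)).trans (min_le_right _ _)).trans
        (min_le_right _ _)
      linarith
  obtain ⟨N, P, hP0, hPN, hPC, hPd⟩ := exists_chain hCc hp hp' hδ
  obtain ⟨M, Q, hQ0, hQM, hQC, hQd⟩ := exists_chain hCc' hq hq' hδ
  have near : ∀ a b : ℝ × ℝ, dist a b < δ →
      Near 1 (⌊a.1 / δ⌋, ⌊a.2 / δ⌋) (⌊b.1 / δ⌋, ⌊b.2 / δ⌋) := by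
    intro a b hab
    rw [Prod.dist_eq] at hab
    have ha1 := lt_of_le_of_lt (le_max_left _ _) hab
    have ha2 := lt_of_le_of_lt (le_max_right _ _) hab
    rw [Real.dist_eq] at ha1 ha2
    constructor
    · apply Cross_floor_near
      rw [← sub_div, abs_div, abs_of_pos hδ, div_lt_one hδ]
      exact ha1
    · apply Cross_floor_near
      rw [← sub_div, abs_div, abs_of_pos hδ, div_lt_one hδ]
      exact ha2
  have gap : ∀ a b : ℝ, 10 * δ ≤ b - a → ⌊a / δ⌋ + 1 < ⌊b / δ⌋ := by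
    intro a b hab
    apply Cross_floor_gap
    rw [← sub_nonneg, show b / δ - (a / δ + 10) = (b - a - 10 * δ) / δ by field_simp; ring]
    exact div_nonneg (by linarith) hδ.le
  obtain ⟨i, hi, j, hj, hij⟩ := king_crossing N M
    (fun i => (⌊(P i).1 / δ⌋, ⌊(P i).2 / δ⌋)) (fun j => (⌊(Q j).1 / δ⌋, ⌊(Q j).2 / δ⌋))
    (fun i hi => near _ _ (hPd i hi)) (fun j hj => near _ _ (hQd j hj))
    (by
      intro j hj
      have := hm1 (hQC j hj)
      simp only [Set.mem_setOf_eq] at this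
      simp only [hP0]
      exact gap _ _ (by linarith))
    (by
      intro j hj
      have := hm2 (hQC j hj)
      simp only [Set.mem_setOf_eq] at this
      simp only [hPN]
      exact gap _ _ (by linarith))
    (by
      intro i hi
      have := hm3 (hPC i hi)
      simp only [Set.mem_setOf_eq] at this
      simp only [hQ0]
      exact gap _ _ (by linarith))
    (by
      intro i hi
      have := hm4 (hPC i hi)
      simp only [Set.mem_setOf_eq] at this
      simp only [hQM]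
      exact gap _ _ (by linarith))
  have hd := hrd (P i) (hPC i hi) (Q j) (hQC j hj)
  rw [edist_dist] at hd
  have hd' : (r : ℝ) < dist (P i) (Q j) := by
    have : ENNReal.ofReal (r : ℝ) < ENNReal.ofReal (dist (P i) (Q j)) := by
      simpa using hd
    exact (ENNReal.ofReal_lt_ofReal_iff_of_nonneg hr'.le).mp this
  obtain ⟨k1, k2⟩ := hij
  have k1' := Cross_floor_close k1
  have k2' := Cross_floor_close k2
  rw [← sub_div, abs_div, abs_of_pos hδ, div_lt_iff₀ hδ] at k1' k2'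
  have : dist (P i) (Q j) < 4 * δ := by
    rw [Prod.dist_eq, Real.dist_eq, Real.dist_eq]
    exact max_lt k1' k2'
  linarith

end CarpetLib
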