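import Pool.Agent.Lib.MP_f3090c_an.P.Cross

/-! P5: crossing lemma for continua outside a square. -/

open Set Filter Topology

namespace CarpetLib

/-- sup norm. -/
private noncomputable def onrm (z : ℝ × ℝ) : ℝ := max |z.1| |z.2|

/-- inversion. -/
private noncomputable def oinv (z : ℝ × ℝ) : ℝ × ℝ := (z.1 / (onrm z) ^ 2, z.2 / (onrm z) ^ 2)

private theorem onrm_continuous : Continuous onrm := by
  unfold onrm
  exact (continuous_fst.abs).max (continuous_snd.abs)

private theorem onrm_oinv {z : ℝ × ℝ} (hz : 0 < onrm z) : onrm (oinv z) = 1 / onrm z := by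
  have h0 : 0 < (onrm z) ^ 2 := pow_pos hz 2
  have h1 : onrm (oinv z) = onrm z / (onrm z) ^ 2 := by
    have h2 : onrm (oinv z) = max |z.1 / (onrm z) ^ 2| |z.2 / (onrm z) ^ 2| := rfl
    rw [h2, abs_div, abs_div, abs_of_pos h0, max_div_div_right h0.le]
    rfl
  rw [h1]
  field_simp

private theorem oinv_inj {z w : ℝ × ℝ} (hz : 0 < onrm z) (hw : 0 < onrm w)
    (h : oinv z = oinv w) : z = w := by
  have h1 : 1 / onrm z = 1 / onrm w := by
    rw [← onrm_oinv hz, ← onrm_oinv hw, h]
  have h2 : onrm z = onrm w := by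
    have := congrArg (fun t => 1 / t) h1
    simpa using this
  have h3 := congrArg Prod.fst h
  have h4 := congrArg Prod.snd h
  simp only [oinv] at h3 h4
  rw [h2] at h3 h4
  have hne : (onrm w) ^ 2 ≠ 0 := (pow_pos hw 2).ne'
  have h5 : z.1 = w.1 := by
    field_simp at h3
    exact h3
  have h6 : z.2 = w.2 := by
    field_simp at h4
    exact h4
  exact Prod.ext h5 h6

private theorem oinv_continuousOn {S : Set (ℝ × ℝ)} (hS : ∀ z ∈ S, 0 < onrm z) :
    ContinuousOn oinv S := by
  unfold oinv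
  refine ContinuousOn.prodMk ?_ ?_
  · exact continuous_fst.continuousOn.div (onrm_continuous.pow 2).continuousOn
      fun z hz => (pow_pos (hS z hz) 2).ne'
  · exact continuous_snd.continuousOn.div (onrm_continuous.pow 2).continuousOn
      fun z hz => (pow_pos (hS z hz) 2).ne'

/-- horizontal segment. -/
theorem hseg_compact (a b y : ℝ) : IsCompact (Icc a b ×ˢ ({y} : Set ℝ)) :=
  isCompact_Icc.prod isCompact_singleton

theorem hseg_preconnected (a b y : ℝ) : IsPreconnected (Icc a b ×ˢ ({y} : Set ℝ)) :=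
  isPreconnected_Icc.prod isPreconnected_singleton

theorem vseg_compact (x a b : ℝ) : IsCompact (({x} : Set ℝ) ×ˢ Icc a b) :=
  isCompact_singleton.prod isCompact_Icc

theorem vseg_preconnected (x a b : ℝ) : IsPreconnected (({x} : Set ℝ) ×ˢ Icc a b) :=
  isPreconnected_singleton.prod isPreconnected_Icc

private theorem outside0 {C C' : Set (ℝ × ℝ)} (hC : IsCompact C) (hCc : IsPreconnected C)
    (hC' : IsCompact C') (hCc' : IsPreconnected C') {k : ℝ} (hk : 0 < k)
    (hCo : ∀ z ∈ C, k ≤ onrm z) (hCo' : ∀ z ∈ C', k ≤ onrm z)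
    (h1 : ((-k, 0) : ℝ × ℝ) ∈ C) (h2 : ((k, 0) : ℝ × ℝ) ∈ C)
    (h3 : ((0, -k) : ℝ × ℝ) ∈ C') (h4 : ((0, k) : ℝ × ℝ) ∈ C') : (C ∩ C').Nonempty := by
  have hk' : 0 < 1 / k := by positivity
  set K := 1 / k with hK
  have hpos : ∀ z ∈ C, 0 < onrm z := fun z hz => lt_of_lt_of_le hk (hCo z hz)
  have hpos' : ∀ z ∈ C', 0 < onrm z := fun z hz => lt_of_lt_of_le hk (hCo' z hz)
  have hbd : ∀ S : Set (ℝ × ℝ), (∀ z ∈ S, k ≤ onrm z) → ∀ w ∈ oinv '' S, onrm w ≤ K := by
    rintro S hS _ ⟨z, hz, rfl⟩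
    rw [onrm_oinv (lt_of_lt_of_le hk (hS z hz)), hK]
    exact one_div_le_one_div_of_le hk (hS z hz)
  have hD : IsCompact (oinv '' C) := hC.image_of_continuousOn (oinv_continuousOn hpos)
  have hD' : IsCompact (oinv '' C') := hC'.image_of_continuousOn (oinv_continuousOn hpos')
  have hDc : IsPreconnected (oinv '' C) := hCc.image _ (oinv_continuousOn hpos)
  have hDc' : IsPreconnected (oinv '' C') := hCc'.image _ (oinv_continuousOn hpos')
  have hkk : k / k ^ 2 = K := by rw [hK]; field_simp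
  have e1 : ((-K, 0) : ℝ × ℝ) ∈ oinv '' C := by
    refine ⟨_, h1, ?_⟩
    have : onrm (-k, 0) = k := by simp [onrm, abs_of_pos hk, hk.le]
    simp only [oinv, this, zero_div, neg_div, hkk]
  have e2 : ((K, 0) : ℝ × ℝ) ∈ oinv '' C := by
    refine ⟨_, h2, ?_⟩
    have : onrm (k, 0) = k := by simp [onrm, abs_of_pos hk, hk.le]
    simp only [oinv, this, zero_div, hkk]
  have e3 : ((0, -K) : ℝ × ℝ) ∈ oinv '' C' := by
    refine ⟨_, h3, ?_⟩
    have : onrm (0, -k) = k := by simp [onrm, abs_of_pos hk, hk.le]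
    simp only [oinv, this, zero_div, neg_div, hkk]
  have e4 : ((0, K) : ℝ × ℝ) ∈ oinv '' C' := by
    refine ⟨_, h4, ?_⟩
    have : onrm (0, k) = k := by simp [onrm, abs_of_pos hk, hk.le]
    simp only [oinv, this, zero_div, hkk]
  have b1 := hbd C hCo
  have b2 := hbd C' hCo'
  have hA1 : ∀ w : ℝ × ℝ, onrm w ≤ K → (-K ≤ w.1 ∧ w.1 ≤ K) ∧ (-K ≤ w.2 ∧ w.2 ≤ K) := by
    intro w hw
    exact ⟨abs_le.1 ((le_max_left _ _).trans hw), abs_le.1 ((le_max_right _ _).trans hw)⟩
  obtain ⟨w, hwA, hwB⟩ := crossing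
    (C := (oinv '' C ∪ Icc (-K - 1) (-K) ×ˢ ({0} : Set ℝ)) ∪ Icc K (K + 1) ×ˢ ({0} : Set ℝ))
    (C' := (oinv '' C' ∪ ({0} : Set ℝ) ×ˢ Icc (-K - 1) (-K)) ∪ ({0} : Set ℝ) ×ˢ Icc K (K + 1))
    ((hD.union (hseg_compact _ _ _)).union (hseg_compact _ _ _))
    (IsPreconnected.union (K, 0) (Or.inl e2) (by simp)
      (IsPreconnected.union (-K, 0) e1 (by simp) hDc (hseg_preconnected _ _ _))
      (hseg_preconnected _ _ _))
    ((hD'.union (vseg_compact _ _ _)).union (vseg_compact _ _ _))
    (IsPreconnected.union (0, K) (Or.inl e4) (by simp)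
      (IsPreconnected.union (0, -K) e3 (by simp) hDc' (vseg_preconnected _ _ _))
      (vseg_preconnected _ _ _))
    (p := (-K - 1, 0)) (p' := (K + 1, 0)) (q := (0, -K - 1)) (q' := (0, K + 1))
    (by simp) (by simp) (by simp) (by simp)
    (by
      rintro z ((hz | hz) | hz)
      · have := (hA1 z (b2 z hz)).1.1
        simp only
        linarith
      · have : z.1 = 0 := hz.1
        simp only [this]
        linarith
      · have : z.1 = 0 := hz.1
        simp only [this]
        linarith)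
    (by
      rintro z ((hz | hz) | hz)
      · have := (hA1 z (b2 z hz)).1.2
        simp only
        linarith
      · have : z.1 = 0 := hz.1
        simp only [this]
        linarith
      · have : z.1 = 0 := hz.1
        simp only [this]
        linarith)
    (by
      rintro z ((hz | hz) | hz)
      · have := (hA1 z (b1 z hz)).2.1
        simp only
        linarith
      · have : z.2 = 0 := hz.2
        simp only [this]
        linarith
      · have : z.2 = 0 := hz.2
        simp only [this]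
        linarith)
    (by
      rintro z ((hz | hz) | hz)
      · have := (hA1 z (b1 z hz)).2.2
        simp only
        linarith
      · have : z.2 = 0 := hz.2
        simp only [this]
        linarith
      · have : z.2 = 0 := hz.2
        simp only [this]
        linarith)
  have hfin : w ∈ oinv '' C ∧ w ∈ oinv '' C' := by
    rcases hwA with (hA | hA) | hA
    · refine ⟨hA, ?_⟩
      have hb := hA1 w (b1 w hA)
      rcases hwB with (hB | hB) | hB
      · exact hB
      · have h5 : w.1 = 0 := hB.1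
        have h6 : w.2 = -K := le_antisymm hB.2.2 hb.2.1
        have : w = (0, -K) := Prod.ext h5 h6
        rw [this]
        exact e3
      · have h5 : w.1 = 0 := hB.1
        have h6 : w.2 = K := le_antisymm hb.2.2 hB.2.1
        have : w = (0, K) := Prod.ext h5 h6
        rw [this]
        exact e4
    · have h5 : w.2 = 0 := hA.2
      have h6 : w.1 ≤ -K := hA.1.2
      rcases hwB with (hB | hB) | hB
      · have hb := hA1 w (b2 w hB)
        have : w = (-K, 0) := Prod.ext (le_antisymm h6 hb.1.1) h5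
        exact ⟨by rw [this]; exact e1, hB⟩
      · have : w.1 = 0 := hB.1
        exact absurd h6 (by linarith)
      · have : w.1 = 0 := hB.1
        exact absurd h6 (by linarith)
    · have h5 : w.2 = 0 := hA.2
      have h6 : K ≤ w.1 := hA.1.1
      rcases hwB with (hB | hB) | hB
      · have hb := hA1 w (b2 w hB)
        have : w = (K, 0) := Prod.ext (le_antisymm hb.1.2 h6) h5
        exact ⟨by rw [this]; exact e2, hB⟩
      · have : w.1 = 0 := hB.1
        exact absurd h6 (by linarith)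
      · have : w.1 = 0 := hB.1
        exact absurd h6 (by linarith)
  obtain ⟨⟨u, hu, hu'⟩, ⟨v, hv, hv'⟩⟩ := hfin
  have huv : u = v := oinv_inj (hpos u hu) (hpos' v hv) (hu'.trans hv'.symm)
  exact ⟨u, hu, huv ▸ hv⟩

/-- Two continua outside the open square of radius `k` about `c`, one joining the left to the
right side, the other one the bottom to the top side, meet. -/
theorem outside_crossing {C C' : Set (ℝ × ℝ)} (hC : IsCompact C) (hCc : IsPreconnected C)
    (hC' : IsCompact C') (hCc' : IsPreconnected C') {k : ℝ} (hk : 0 < k) {c : ℝ × ℝ}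
    (hCo : ∀ z ∈ C, k ≤ max |z.1 - c.1| |z.2 - c.2|)
    (hCo' : ∀ z ∈ C', k ≤ max |z.1 - c.1| |z.2 - c.2|)
    (h1 : ((c.1 - k, c.2) : ℝ × ℝ) ∈ C) (h2 : ((c.1 + k, c.2) : ℝ × ℝ) ∈ C)
    (h3 : ((c.1, c.2 - k) : ℝ × ℝ) ∈ C') (h4 : ((c.1, c.2 + k) : ℝ × ℝ) ∈ C') :
    (C ∩ C').Nonempty := by
  have hcont : Continuous fun z : ℝ × ℝ => z - c := continuous_id.sub continuous_const
  obtain ⟨w, ⟨z, hz, hzw⟩, ⟨z', hz', hzw'⟩⟩ := outside0
    (C := (fun z : ℝ × ℝ => z - c) '' C) (C' := (fun z : ℝ × ℝ => z - c) '' C')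
    (hC.image hcont) (hCc.image _ hcont.continuousOn) (hC'.image hcont)
    (hCc'.image _ hcont.continuousOn) hk
    (by
      rintro _ ⟨z, hz, rfl⟩
      exact hCo z hz)
    (by
      rintro _ ⟨z, hz, rfl⟩
      exact hCo' z hz)
    ⟨_, h1, by ext <;> simp⟩ ⟨_, h2, by ext <;> simp⟩
    ⟨_, h3, by ext <;> simp⟩ ⟨_, h4, by ext <;> simp⟩
  have : z = z' := by
    have := hzw.trans hzw'.symm
    simpa using this
  exact ⟨z, hz, this ▸ hz'⟩

end CarpetLib
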